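import Mathlib

set_option autoImplicit false

namespace Pool.Agent.Results.MP_dbb1e7_al.Counter
open Polynomial

variable {K : Type} [Field K]

abbrev B (K : Type) [Field K] := Polynomial (Polynomial K)

noncomputable def io : K →+* B K := C.comp C

/-- `K ⊕ K[x,y]²`, with product `p q = (x p₁ + y p₂) q` on the second summand. -/
@[ext] structure A (K : Type) [Field K] where
  c : K
  f : B K
  g : B K

noncomputable def pi (u : A K) : B K := C X * u.f + X * u.g

noncomputable instance : Add (A K) := ⟨fun u v => ⟨u.c + v.c, u.f + v.f, u.g + v.g⟩⟩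
noncomputable instance : Zero (A K) := ⟨⟨0, 0, 0⟩⟩
noncomputable instance : One (A K) := ⟨⟨1, 0, 0⟩⟩
noncomputable instance : Neg (A K) := ⟨fun u => ⟨-u.c, -u.f, -u.g⟩⟩
noncomputable instance : Mul (A K) := ⟨fun u v => ⟨u.c * v.c,
  io u.c * v.f + io v.c * u.f + pi u * v.f, io u.c * v.g + io v.c * u.g + pi u * v.g⟩⟩
noncomputable instance : SMul K (A K) := ⟨fun k u => ⟨k * u.c, io k * u.f, io k * u.g⟩⟩

theorem add_def (u v : A K) : u + v = ⟨u.c + v.c, u.f + v.f, u.g + v.g⟩ := rfl
theorem zero_def : (0 : A K) = ⟨0, 0, 0⟩ := rfl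
theorem one_def : (1 : A K) = ⟨1, 0, 0⟩ := rfl
theorem neg_def (u : A K) : -u = ⟨-u.c, -u.f, -u.g⟩ := rfl
theorem mul_def (u v : A K) : u * v = ⟨u.c * v.c,
  io u.c * v.f + io v.c * u.f + pi u * v.f, io u.c * v.g + io v.c * u.g + pi u * v.g⟩ := rfl
theorem smul_def (k : K) (u : A K) : k • u = ⟨k * u.c, io k * u.f, io k * u.g⟩ := rfl

noncomputable instance : AddCommGroup (A K) where
  add_assoc u v w := by simp only [add_def, add_assoc]
  zero_add u := by simp only [add_def, zero_def, zero_add]
  add_zero u := by simp only [add_def, zero_def, add_zero]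
  nsmul := nsmulRec
  zsmul := zsmulRec
  neg_add_cancel u := by simp only [add_def, zero_def, neg_def, neg_add_cancel]
  add_comm u v := by simp only [add_def, add_comm]

noncomputable instance : Ring (A K) where
  left_distrib u v w := by
    refine A.ext ?_ ?_ ?_ <;> simp only [add_def, mul_def, pi, map_add] <;> ring
  right_distrib u v w := by
    refine A.ext ?_ ?_ ?_ <;> simp only [add_def, mul_def, pi, map_add] <;> ring
  zero_mul u := by refine A.ext ?_ ?_ ?_ <;> simp [zero_def, mul_def, pi]
  mul_zero u := by refine A.ext ?_ ?_ ?_ <;> simp [zero_def, mul_def, pi]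
  one_mul u := by refine A.ext ?_ ?_ ?_ <;> simp [one_def, mul_def, pi]
  mul_one u := by refine A.ext ?_ ?_ ?_ <;> simp [one_def, mul_def, pi]
  mul_assoc u v w := by
    refine A.ext ?_ ?_ ?_ <;> simp only [mul_def, pi, map_mul] <;> ring
  zsmul := zsmulRec
  neg_add_cancel := neg_add_cancel

noncomputable instance : Module K (A K) where
  one_smul u := by simp [smul_def]
  mul_smul k l u := by simp [smul_def, mul_assoc]
  smul_zero k := by simp [smul_def, zero_def]
  smul_add k u v := by simp [smul_def, add_def, mul_add]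
  add_smul k l u := by simp [smul_def, add_def, add_mul]
  zero_smul u := by simp [smul_def, zero_def]

noncomputable instance : Algebra K (A K) := Algebra.ofModule
  (fun k u v => by
    refine A.ext ?_ ?_ ?_ <;> simp only [smul_def, mul_def, pi, map_mul] <;> ring)
  (fun k u v => by
    refine A.ext ?_ ?_ ?_ <;> simp only [smul_def, mul_def, pi, map_mul] <;> ring)

theorem alg (k : K) : algebraMap K (A K) k = ⟨k, 0, 0⟩ := by
  rw [Algebra.algebraMap_eq_smul_one, smul_def, one_def]; simp

theorem comm_iff (u v : A K) :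
    u * v = v * u ↔ pi u * v.f = pi v * u.f ∧ pi u * v.g = pi v * u.g := by
  simp only [mul_def, A.mk.injEq, mul_comm u.c, true_and]
  exact and_congr ⟨fun h => by linear_combination h, fun h => by linear_combination h⟩
    ⟨fun h => by linear_combination h, fun h => by linear_combination h⟩

theorem cen (u : A K) : u ∈ Subalgebra.center K (A K) ↔ u.f = 0 ∧ u.g = 0 := by
  rw [Subalgebra.mem_center_iff]
  constructor
  · intro h
    have h1 := ((comm_iff _ _).1 (h ⟨0, 1, 0⟩)).2
    have h2 := ((comm_iff _ _).1 (h ⟨0, 0, 1⟩)).1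
    simp [pi] at h1 h2
    exact ⟨h2, h1⟩
  · intro h v
    rw [comm_iff]; simp [pi, h.1, h.2]

theorem fg : Algebra.FiniteType K (A K) := by
  classical
  refine ⟨⟨{⟨0, 1, 0⟩, ⟨0, 0, 1⟩}, ?_⟩⟩
  set S := Algebra.adjoin K ((({⟨0, 1, 0⟩, ⟨0, 0, 1⟩} : Finset (A K)) : Set (A K)))
  have e1 : (⟨0, 1, 0⟩ : A K) ∈ S := Algebra.subset_adjoin (by simp)
  have e2 : (⟨0, 0, 1⟩ : A K) ∈ S := Algebra.subset_adjoin (by simp)
  let T : B K → Prop := fun b => ∀ f g : B K, (⟨0, f, g⟩ : A K) ∈ S → (⟨0, b * f, b * g⟩ : A K) ∈ S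
  have ta : ∀ a b, T a → T b → T (a + b) := fun a b ha hb f g h => by
    convert S.add_mem (ha f g h) (hb f g h) using 1
    simp [add_def, add_mul]
  have tm : ∀ a b, T a → T b → T (a * b) := fun a b ha hb f g h => by
    simpa [mul_assoc] using ha _ _ (hb f g h)
  have tx : T (C X) := fun f g h => by
    convert S.mul_mem e1 h using 1
    simp [mul_def, pi]
  have ty : T X := fun f g h => by
    convert S.mul_mem e2 h using 1
    simp [mul_def, pi]
  have tc : ∀ a, T (C a) := fun a => by
    induction a using Polynomial.induction_on with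
    | C k => intro f g h; simpa [smul_def, io] using S.smul_mem h k
    | add p q hp hq => rw [C_add]; exact ta _ _ hp hq
    | monomial n k h => rw [pow_succ, ← mul_assoc, C_mul]; exact tm _ _ h tx
  have tt : ∀ b, T b := fun b => by
    induction b using Polynomial.induction_on with
    | C k => exact tc k
    | add p q hp hq => exact ta _ _ hp hq
    | monomial n k h => rw [pow_succ, ← mul_assoc]; exact tm _ _ h ty
  rw [eq_top_iff]
  intro u _
  convert S.add_mem (S.algebraMap_mem u.c) (S.add_mem (tt u.f _ _ e1) (tt u.g _ _ e2)) using 1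
  simp [alg, add_def]

theorem comm (a : A K) (ha : ¬ (a.f = 0 ∧ a.g = 0)) (u v : A K) (hu : a * u = u * a)
    (hv : a * v = v * a) : u * v = v * u := by
  rw [comm_iff] at *
  by_cases h : pi a = 0
  · have k : ∀ w : A K, pi a * w.f = pi w * a.f ∧ pi a * w.g = pi w * a.g → pi w = 0 := by
      intro w hw
      by_contra hn
      rw [h, zero_mul, zero_mul] at hw
      exact ha ⟨(mul_eq_zero.1 hw.1.symm).resolve_left hn, (mul_eq_zero.1 hw.2.symm).resolve_left hn⟩
    simp [k u hu, k v hv]
  · exact ⟨mul_left_cancel₀ h (by linear_combination pi u * hv.1 - pi v * hu.1),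
      mul_left_cancel₀ h (by linear_combination pi u * hv.2 - pi v * hu.2)⟩

theorem nn (a : A K) (ha : ¬ (a.f = 0 ∧ a.g = 0)) :
    ¬ IsNoetherianRing (Subalgebra.centralizer K ({a} : Set (A K))) := by
  intro hN
  letI := UniqueFactorizationMonoid.toGCDMonoid (B K)
  obtain ⟨f, g, hf, hg, hu⟩ := extract_gcd a.f a.g
  set d := gcd a.f a.g
  have hd : d ≠ 0 := fun h => ha ⟨by rw [hf, h, zero_mul], by rw [hg, h, zero_mul]⟩
  set r : B K := C X * f + X * g with hr
  have hp : pi a = d * r := by rw [pi, hr]; linear_combination C X * hf + X * hg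
  have dv : ∀ w : A K, a * w = w * a → r ∣ pi w := fun w hw => by
    rw [comm_iff, hp] at hw
    have h1 : r * w.f = pi w * f := mul_left_cancel₀ hd (by linear_combination hw.1 + pi w * hf)
    have h2 : r * w.g = pi w * g := mul_left_cancel₀ hd (by linear_combination hw.2 + pi w * hg)
    have := (dvd_gcd (⟨_, h1.symm⟩ : r ∣ pi w * f) (⟨_, h2.symm⟩ : r ∣ pi w * g)).trans
      (gcd_mul_left' (pi w) f g).dvd
    exact hu.dvd_mul_right.1 this
  have mem : ∀ b : B K, (⟨0, b * f, b * g⟩ : A K) ∈ Subalgebra.centralizer K ({a} : Set (A K)) := by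
    intro b
    rw [Subalgebra.mem_centralizer_iff]
    rintro _ rfl
    rw [comm_iff, hp]
    simp only [pi]
    constructor
    · linear_combination (-b) * r * hf
    · linear_combination (-b) * r * hg
  have key : ∀ φ : Polynomial K →+* B K, (∀ k, φ (C k) = io k) →
      ∃ u : Polynomial K, u.Monic ∧ r ∣ φ u := by
    intro φ hφ
    let I : ℕ → Ideal (Subalgebra.centralizer K ({a} : Set (A K))) := fun n =>
      { carrier := {w | ∃ u : Polynomial K, u.degree < n ∧ ∃ b : B K,
          w.1 = ⟨0, (φ u + r * b) * f, (φ u + r * b) * g⟩}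
        add_mem' := by
          rintro w w' ⟨u, h1, b, h2⟩ ⟨u', h1', b', h2'⟩
          refine ⟨u + u', (degree_add_le _ _).trans_lt (max_lt h1 h1'), b + b', ?_⟩
          rw [Subalgebra.coe_add, h2, h2']
          refine A.ext ?_ ?_ ?_ <;> simp only [add_def, map_add] <;> ring
        zero_mem' := ⟨0, by simp, 0, by simp [zero_def]⟩
        smul_mem' := by
          rintro z w ⟨u, h1, b, h2⟩
          obtain ⟨s, hs⟩ := dv z.1 ((Subalgebra.mem_centralizer_iff K).1 z.2 a rfl)
          refine ⟨C z.1.c * u, ?_, io z.1.c * b + s * (φ u + r * b), ?_⟩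
          · rw [← smul_eq_C_mul]; exact (degree_smul_le _ _).trans_lt h1
          · rw [smul_eq_mul, Subalgebra.coe_mul, h2]
            refine A.ext ?_ ?_ ?_ <;> simp only [mul_def, map_mul, hφ, hs, map_zero] <;> ring }
    obtain ⟨n, hn⟩ := monotone_stabilizes_iff_noetherian.2 hN ⟨I, fun i j h w => by
      rintro ⟨u, h1, h2⟩
      exact ⟨u, h1.trans_le (by exact_mod_cast h), h2⟩⟩
    have h1 : (⟨_, mem (φ (X ^ n))⟩ : Subalgebra.centralizer K ({a} : Set (A K))) ∈ I (n + 1) :=
      ⟨X ^ n, by rw [degree_X_pow]; exact_mod_cast n.lt_succ_self, 0, by simp⟩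
    have h2 : I n = I (n + 1) := hn (n + 1) (by omega)
    rw [← h2] at h1
    obtain ⟨u, h3, b, h4⟩ := h1
    refine ⟨X ^ n - u, monic_X_pow_sub h3, b, ?_⟩
    simp only [A.mk.injEq, true_and] at h4
    rw [map_sub]
    by_cases h0 : f = 0
    · have : g ≠ 0 := fun h => ha ⟨by rw [hf, h0, mul_zero], by rw [hg, h, mul_zero]⟩
      linear_combination mul_right_cancel₀ this h4.2
    · linear_combination mul_right_cancel₀ h0 h4.1
  obtain ⟨u, h1, h2⟩ := key C fun k => rfl
  obtain ⟨v, h3, h4⟩ := key (mapRingHom C) fun k => by simp [io]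
  have h5 : r.natDegree = 0 := by
    have := natDegree_le_of_dvd h2 (C_ne_zero.2 h1.ne_zero)
    simpa using this
  have h6 : r.coeff 0 = X * f.coeff 0 := by simp [hr]
  rw [eq_C_of_natDegree_eq_zero h5, C_dvd_iff_dvd_coeff] at h4
  have h7 := h4 v.natDegree
  simp only [coe_mapRingHom, coeff_map, h3.coeff_natDegree, map_one, h6] at h7
  exact not_isUnit_X (isUnit_of_dvd_one (dvd_of_mul_right_dvd h7))

/-- Over every field there is a finitely generated central algebra, different from the field, all
of whose proper centralizers are commutative and none of which is Noetherian. -/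
theorem result (K : Type) [Field K] : ∃ (R : Type) (_ : Ring R) (_ : Algebra K R),
    Algebra.FiniteType K R ∧ Subalgebra.center K R = ⊥ ∧ (⊥ : Subalgebra K R) ≠ ⊤ ∧
    ∀ a : R, a ∉ Subalgebra.center K R →
      (∀ u ∈ Subalgebra.centralizer K ({a} : Set R), ∀ v ∈ Subalgebra.centralizer K ({a} : Set R),
        u * v = v * u) ∧ ¬ IsNoetherianRing (Subalgebra.centralizer K ({a} : Set R)) := by
  have hc : Subalgebra.center K (A K) = ⊥ := by
    refine le_antisymm (fun u hu => ?_) bot_le
    rw [cen] at hu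
    exact Algebra.mem_bot.2 ⟨u.c, by rw [alg]; exact A.ext rfl hu.1.symm hu.2.symm⟩
  refine ⟨A K, inferInstance, inferInstance, fg, hc, fun h => ?_, fun a ha => ⟨fun u hu v hv =>
    comm a (by rwa [cen] at ha) u v ((Subalgebra.mem_centralizer_iff K).1 hu a rfl)
      ((Subalgebra.mem_centralizer_iff K).1 hv a rfl), nn a (by rwa [cen] at ha)⟩⟩
  have : (⟨0, 1, 0⟩ : A K) ∈ Subalgebra.center K (A K) := by rw [hc, h]; trivial
  rw [cen] at this
  exact one_ne_zero this.1

end Pool.Agent.Results.MP_dbb1e7_al.Counter
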